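import Pool.Agent.Lib.MP_9f4369_gt.AnySpace

set_option autoImplicit false

namespace Pool.Agent.Results.MP_9f4369_gt.NotRingOfFunctions

/-- `A` is a Φ-algebra: an archimedean lattice-ordered commutative real algebra whose identity is a
weak order unit. -/
structure IsPhiAlgebra (A : Type) [CommRing A] [Lattice A] [Algebra ℝ A] : Prop where
  add_le_add : ∀ a b c : A, a ≤ b → a + c ≤ b + c
  mul_nonneg : ∀ a b : A, 0 ≤ a → 0 ≤ b → 0 ≤ a * b
  smul_nonneg : ∀ (r : ℝ) (a : A), 0 ≤ r → 0 ≤ a → 0 ≤ r • a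
  archimedean : ∀ a b : A, (∀ n : ℕ, n • a ≤ b) → a ≤ 0
  one_nonneg : (0 : A) ≤ 1
  weak_unit : ∀ a : A, (1 : A) ⊓ |a| = 0 → a = 0

/-- A real maximal ideal: a maximal ideal `M` with `A / M` isomorphic to the field of reals. -/
def IsRealIdeal {A : Type} [CommRing A] (M : Ideal A) : Prop :=
  M.IsMaximal ∧ Nonempty (A ⧸ M ≃+* ℝ)

/-- The real maximal ideals of `A` meet in zero. -/
def RealValued (A : Type) [CommRing A] : Prop :=
  ∀ a : A, (∀ M : Ideal A, IsRealIdeal M → a ∈ M) → a = 0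

/-- `A` is uniformly closed: a function on the set of real maximal ideals that is a uniform limit of
a sequence of elements of `A` is an element of `A`. -/
def UniformlyClosed (A : Type) [CommRing A] : Prop :=
  ∀ (s : ℕ → A) (f : {M : Ideal A // IsRealIdeal M} → ℝ),
    (∀ ε : ℝ, 0 < ε → ∃ N : ℕ, ∀ n : ℕ, N ≤ n → ∀ (M : {M : Ideal A // IsRealIdeal M})
      (φ : A ⧸ M.1 ≃+* ℝ), |φ (Ideal.Quotient.mk M.1 (s n)) - f M| ≤ ε) →
    ∃ a : A, ∀ (M : {M : Ideal A // IsRealIdeal M}) (φ : A ⧸ M.1 ≃+* ℝ),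
      φ (Ideal.Quotient.mk M.1 a) = f M

/-- `A` is closed under strong inversion: every module map into `A` from an ideal with annihilator
zero that lies in no real maximal ideal is the multiplication by an element of `A`. -/
def StrongInversionClosed (A : Type) [CommRing A] : Prop :=
  ∀ D : Ideal A, (∀ a : A, (∀ d ∈ D, a * d = 0) → a = 0) →
    (∀ M : Ideal A, IsRealIdeal M → ¬ D ≤ M) →
    ∀ φ : D →ₗ[A] A, ∃ c : A, ∀ d : D, φ d = c * (d : A)

/-- There is an SI-algebra (a uniformly closed Φ-algebra of real-valued functions that is closed under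
strong inversion) that is not isomorphic, even as a ring, to the ring of all continuous real functions
on any topological space. -/
theorem result.{u} : ∃ (A : Type) (_ : CommRing A) (_ : Lattice A) (_ : Algebra ℝ A),
    IsPhiAlgebra A ∧ RealValued A ∧ UniformlyClosed A ∧ StrongInversionClosed A ∧
    ∀ (X : Type u) [TopologicalSpace X], IsEmpty (A ≃+* C(X, ℝ)) := by
  classical
  refine ⟨Pool.Agent.Lib.MP_9f4369_gt.Al, inferInstance, inferInstance, inferInstance,
    ⟨Pool.Agent.Lib.MP_9f4369_gt.ax_add, Pool.Agent.Lib.MP_9f4369_gt.ax_mul,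
      Pool.Agent.Lib.MP_9f4369_gt.ax_smul, Pool.Agent.Lib.MP_9f4369_gt.ax_arch,
      Pool.Agent.Lib.MP_9f4369_gt.ax_one, Pool.Agent.Lib.MP_9f4369_gt.ax_unit⟩,
    fun a h => Pool.Agent.Lib.MP_9f4369_gt.cond1 a (fun M h1 h2 => h M ⟨h1, h2⟩), ?_,
    fun D _ hD φ => Pool.Agent.Lib.MP_9f4369_gt.cond3 D (fun M h1 h2 => hD M ⟨h1, h2⟩) φ,
    fun X _ => ⟨fun Φ => Pool.Agent.Lib.MP_9f4369_gt.no_ring_iso Φ⟩⟩
  intro s f h
  obtain ⟨a, ha⟩ := Pool.Agent.Lib.MP_9f4369_gt.cond2 s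
    (fun M => if hM : IsRealIdeal M then f ⟨M, hM⟩ else 0) (by
      intro ε hε
      obtain ⟨N, hN⟩ := h ε hε
      refine ⟨N, fun n hn M hM φ => ?_⟩
      have hr : IsRealIdeal M := ⟨hM, ⟨φ⟩⟩
      rw [dif_pos hr]
      exact hN n hn ⟨M, hr⟩ φ)
  refine ⟨a, fun M φ => ?_⟩
  have := ha M.1 M.2.1 φ
  rw [dif_pos M.2] at this
  exact this

end Pool.Agent.Results.MP_9f4369_gt.NotRingOfFunctions
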